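import Pool.Agent.Helper32.CL.St4
import Pool.Agent.Helper28.PI2.M_PE
import Pool.Agent.Helper2.PI2.M_PV
import Pool.Agent.Helper13.PI.M_T3

/-! # Module SE of project CL: the reaction for small `2X - Y` -/

set_option autoImplicit false

namespace Helper47.CL

open Helper32.CL Helper35.PI Helper35.PI2
open scoped ContDiff Manifold Topology ENNReal BigOperators
open MeasureTheory Set Filter

theorem hSE : StSE := by
  intro N A T hA hT
  obtain ⟨h1, h2⟩ := Helper28.PI2.hPE N A (1 / 2) hA _ _ _ rfl rfl rfl _ _ rfl rfl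
  have h3 := Helper13.PI.hT3 2 N T hT
  have e1 : (3 : ℝ) / (((2 : ℕ) : ℝ) + 2) = 3 / 4 := by norm_num
  rw [e1] at h3
  have h3' : 3 / 4 * eq2 T ≤ tq T := h3
  have hX1 : hX A T = -2 * tq T + 2 * Sq A := rfl
  have hY1 : hY A T = -2 * eq2 T + 2 * ZZ A := rfl
  have c1 : (inner ℝ (A 0 0 - A 1 1) (Hv A) : ℝ) ^ 2 ≤ ‖A 0 0 - A 1 1‖ ^ 2 * YY A := by
    unfold YY
    rw [← mul_pow]
    exact sq_le_sq' (neg_le_of_abs_le (abs_real_inner_le_norm _ _))
      ((le_abs_self _).trans (abs_real_inner_le_norm _ _))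
  have c2 : (inner ℝ ((2 : ℝ) • A 0 1) (Hv A) : ℝ) ^ 2 ≤ ‖(2 : ℝ) • A 0 1‖ ^ 2 * YY A := by
    unfold YY
    rw [← mul_pow]
    exact sq_le_sq' (neg_le_of_abs_le (abs_real_inner_le_norm _ _))
      ((le_abs_self _).trans (abs_real_inner_le_norm _ _))
  have hY0 : 0 ≤ YY A := by unfold YY; positivity
  refine ⟨?_, ?_, Helper2.PI2.hPV N A T 0 hA hT le_rfl zero_le_one⟩
  · rw [hX1, hY1]
    generalize (inner ℝ (A 0 0 - A 1 1) (Hv A) : ℝ) = a at *
    generalize (inner ℝ ((2 : ℝ) • A 0 1) (Hv A) : ℝ) = b at *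
    generalize (inner ℝ (A 0 0 - A 1 1) ((2 : ℝ) • A 0 1) : ℝ) = d at *
    generalize ‖A 0 0 - A 1 1‖ = p at *
    generalize ‖(2 : ℝ) • A 0 1‖ = q at *
    generalize hθ : 2 * XX A - YY A = θ at *
    have h5 : a ^ 2 + b ^ 2 ≤ θ * YY A := by rw [h1]; linarith
    nlinarith [sq_nonneg (p ^ 2 - q ^ 2), sq_nonneg d, sq_nonneg θ]
  · rw [h1]
    positivity

end Helper47.CL
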